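import Pool.Agent.V5helper50.RC.Stm
import Pool.Agent.V5helper37.RS.Com

/-!
# Project RC, job UP2: the upper bound (adapted from `Pool.Agent.V5helper37.RS.UP`)
-/

set_option autoImplicit false

open Finset MeasureTheory ProbabilityTheory

namespace Pool.Agent.V5helper3.RC

open Pool.Agent.V5helper50.RC
open Pool.Agent.V5helper50.RS (av pr Tk Tk_pos pr_mono pr_or pr_union)
open Pool.Agent.V5helper37.RS (expb loglin)

theorem R_congr {k : ℕ} {q t t' : ℕ → ℕ} {n : ℕ} (h : ∀ x < n, t x = t' x) (j u : ℕ) :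
    R k q t j n u = R k q t' j n u := by
  unfold R
  congr 1
  apply Finset.filter_congr
  intro x hx
  have h1 : ∀ i, A k q t (x i) = A k q t' (x i) := by
    intro i
    have := Fintype.mem_piFinset.mp hx i
    unfold A
    rw [h _ (mem_range.mp this)]
  simp only [h1]

theorem F_congr {k : ℕ} {q t t' : ℕ → ℕ} {x : ℕ} (h : ∀ y ≤ x, t y = t' y) (j u : ℕ) :
    F k q j u x t = F k q j u x t' := by
  unfold F
  have h1 : A k q t x = A k q t' x := by unfold A; rw [h x le_rfl]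
  rw [h1]
  apply Finset.sum_congr rfl
  intro i _
  rw [R_congr (fun y hy => h y hy.le)]

theorem Bd_le {k j d' : ℕ} (hkd : k ≤ d') (hj : j ≤ d') {C : ℝ} (hC : 0 ≤ C) {L : ℕ} (hL : 1 ≤ L) :
    Bd k C j L ≤ C * (1 + Real.log L) ^ (2 * d') * ((L : ℝ) ^ d' / (L : ℝ) ^ k) := by
  have hL1 : (1 : ℝ) ≤ L := by exact_mod_cast hL
  have hL0 : (0 : ℝ) < L := by linarith
  have hlog : 0 ≤ Real.log L := Real.log_nonneg hL1
  unfold Bd
  have h1 : (1 + Real.log L) ^ (2 * j) ≤ (1 + Real.log L) ^ (2 * d') :=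
    pow_le_pow_right₀ (by linarith) (by omega)
  have h2 : max 1 ((L : ℝ) ^ j / (L : ℝ) ^ k) ≤ (L : ℝ) ^ d' / (L : ℝ) ^ k := by
    apply max_le
    · rw [one_le_div (by positivity)]
      exact pow_le_pow_right₀ hL1 hkd
    · apply div_le_div_of_nonneg_right _ (by positivity)
      exact pow_le_pow_right₀ hL1 hj
  exact mul_le_mul (mul_le_mul_of_nonneg_left h1 hC) h2 (le_trans zero_le_one (le_max_left _ _))
    (by positivity)

/-- outside the bad event the functions `F` are bounded -/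
theorem F_le {k d' L u x : ℕ} {q : ℕ → ℕ} (hkd : k ≤ d') (hL : 1 ≤ L) (hx : x < L + 1)
    (hu : u ≤ (L + 1) ^ k) {C₁ : ℝ} (hC₁ : 1 ≤ C₁) {t : ℕ → ℕ}
    (ht : ¬ ∃ i ≤ d', ∃ n ≤ L + 1, ∃ u ≤ (L + 1) ^ k, Bd k C₁ i L < (R k q t i n u : ℝ)) :
    F k q (d' + 1) u x t ≤
      2 ^ (d' + 1) * (C₁ * (1 + Real.log L) ^ (2 * d') * ((L : ℝ) ^ d' / (L : ℝ) ^ k)) := by
  have hL1 : (1 : ℝ) ≤ L := by exact_mod_cast hL
  have hlog : 0 ≤ Real.log L := Real.log_nonneg hL1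
  set BB : ℝ := C₁ * (1 + Real.log L) ^ (2 * d') * ((L : ℝ) ^ d' / (L : ℝ) ^ k) with hBB
  have hBB0 : 0 ≤ BB := by positivity
  push Not at ht
  have h1 : F k q (d' + 1) u x t ≤ ∑ i ∈ Icc 1 (d' + 1), ((d' + 1).choose i : ℝ) * BB := by
    unfold F
    apply Finset.sum_le_sum
    intro i hi
    apply mul_le_mul_of_nonneg_left _ (Nat.cast_nonneg _)
    rw [mem_Icc] at hi
    split_ifs with h
    · refine (ht (d' + 1 - i) (by omega) x hx.le _ ((Nat.sub_le _ _).trans hu)).trans ?_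
      exact Bd_le hkd (by omega) (by linarith) hL
    · exact hBB0
  refine h1.trans ?_
  rw [← Finset.sum_mul]
  apply mul_le_mul_of_nonneg_right _ hBB0
  have h2 : ∑ i ∈ Icc 1 (d' + 1), ((d' + 1).choose i) ≤ 2 ^ (d' + 1) := by
    rw [← Nat.sum_range_choose (d' + 1)]
    apply Finset.sum_le_sum_of_subset
    intro i hi
    rw [mem_Icc] at hi
    rw [mem_range]
    omega
  exact_mod_cast h2

theorem t_UP2 : S_UP2 := by
  intro hCHU hREC hMA hMB hBND k K q d hk hd hch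
  obtain ⟨d', rfl⟩ : ∃ d', d = d' + 1 := ⟨d - 1, by omega⟩
  have hkd : k ≤ d' := by omega
  obtain ⟨C, hC, hMB⟩ := hMB k K q (d' + 1) hk (by omega) hch
  refine ⟨2 * C, by positivity, ?_⟩
  intro ε hε
  obtain ⟨L1, hL1, hMB⟩ := hMB (ε / 8) (by positivity)
  obtain ⟨C₁, hC₁, hBND⟩ := hBND k K q d' hk hch
  obtain ⟨L2, hL2, hlogl⟩ := loglin (2 * d' + 1)
    ((2 * k + 2) * (2 ^ (d' + 1) * C₁)) (3 / 4 * ε) (by positivity)
  refine ⟨C₁ + 1, max L1 L2, le_trans hL1 (le_max_left _ _), ?_⟩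
  intro L hL
  have hLL1 : L1 ≤ L := (le_max_left _ _).trans hL
  have hLL2 : L2 ≤ L := (le_max_right _ _).trans hL
  have hL1' : 1 ≤ L := hL1.trans hLL1
  have hLr : (1 : ℝ) ≤ L := by exact_mod_cast hL1'
  have hL0 : (0 : ℝ) < L := by linarith
  have hlog : 0 ≤ Real.log L := Real.log_nonneg hLr
  have hT : ∀ x, 0 < Tk k x := Tk_pos k
  set Y : ℝ := (L : ℝ) ^ d' / (L : ℝ) ^ k with hY
  have hY0 : 0 < Y := by positivity
  set B : ℝ := 2 ^ (d' + 1) * (C₁ * (1 + Real.log L) ^ (2 * d') * Y) with hB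
  have hB0 : 0 < B := by positivity
  set lam : ℝ := (2 * k + 2) * (1 + Real.log L) with hlam
  have hX : (L : ℝ) ^ (d' + 1) / (L : ℝ) ^ k = L * Y := by rw [hY, pow_succ]; ring
  -- the inequality for large `L`
  have hkey : lam * B ≤ 3 / 4 * ε * (L * Y) := by
    have h1 := hlogl L hLL2
    have h3 : lam * B = (2 * k + 2) * (2 ^ (d' + 1) * C₁) * (1 + Real.log L) ^ (2 * d' + 1) * Y := by
      rw [hlam, hB, pow_succ (1 + Real.log L)]; ring
    rw [h3]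
    calc (2 * k + 2) * (2 ^ (d' + 1) * C₁) * (1 + Real.log L) ^ (2 * d' + 1) * Y ≤
          3 / 4 * ε * L * Y := mul_le_mul_of_nonneg_right h1 hY0.le
      _ = 3 / 4 * ε * (L * Y) := by ring
  -- the mean
  let μ : ℕ → ℝ := fun u => C * ((L : ℝ) ^ (d' + 1) / (L : ℝ) ^ k) *
          ((W k (q (sq L)) (q L) (d' + 1) u : ℝ) / (q (sq L) : ℝ) ^ (d' + 1 - 1)) +
        ε / 8 * ((L : ℝ) ^ (d' + 1) / (L : ℝ) ^ k)
  -- the events
  let E0 : (ℕ → ℕ) → Prop := fun t => ∃ i ≤ d', ∃ n ≤ L + 1, ∃ u ≤ (L + 1) ^ k,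
    Bd k C₁ i L < (R k q t i n u : ℝ)
  let E1 : ℕ → (ℕ → ℕ) → Prop := fun u t => (∀ x < L + 1, F k q (d' + 1) u x t ≤ B) ∧
    2 * μ u + lam * B ≤ ∑ x ∈ range (L + 1), F k q (d' + 1) u x t
  have hE1 : ∀ u, L ^ k ≤ u → u < (L + 1) ^ k →
      pr (Tk k) (L + 1) (E1 u) ≤ Real.exp (-lam) := by
    intro u hu1 hu2
    apply hCHU (Tk k) hT (L + 1) (fun x t => F k q (d' + 1) u x t) B lam (μ u) hB0
    · intro x _ t
      unfold F
      apply Finset.sum_nonneg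
      intro i _
      split_ifs <;> positivity
    · intro x _ t t' h
      exact F_congr h _ _
    · intro t ht
      exact (Finset.sum_le_sum fun x _ => hMA k K q (d' + 1) u x hk hch (by omega) t ht).trans
        (hMB L u (L + 1) hLL1 hu1 hu2 t ht)
  have hsub : ∀ t : ℕ → ℕ, (∀ x, t x < Tk k x) →
      (∃ u, L ^ k ≤ u ∧ u < (L + 1) ^ k ∧
        2 * C * ((L : ℝ) ^ (d' + 1) / (L : ℝ) ^ k) *
            ((W k (q (sq L)) (q L) (d' + 1) u : ℝ) / (q (sq L) : ℝ) ^ (d' + 1 - 1)) +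
          ε * ((L : ℝ) ^ (d' + 1) / (L : ℝ) ^ k) < (R k q t (d' + 1) (L + 1) u : ℝ)) →
      E0 t ∨ ∃ u ∈ Ico (L ^ k) ((L + 1) ^ k), E1 u t := by
    rintro t ht ⟨u, hu1, hu2, hu⟩
    by_cases h0 : E0 t
    · exact Or.inl h0
    · right
      refine ⟨u, mem_Ico.mpr ⟨hu1, hu2⟩, ?_, ?_⟩
      · intro x hx
        exact F_le hkd hL1' hx hu2.le hC₁ h0
      · rw [← hREC k q t (d' + 1) (L + 1) u (by omega)]
        refine le_trans ?_ hu.le
        show 2 * (C * ((L : ℝ) ^ (d' + 1) / (L : ℝ) ^ k) *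
          ((W k (q (sq L)) (q L) (d' + 1) u : ℝ) / (q (sq L) : ℝ) ^ (d' + 1 - 1)) +
          ε / 8 * ((L : ℝ) ^ (d' + 1) / (L : ℝ) ^ k)) + lam * B ≤ _
        set ρ : ℝ := (W k (q (sq L)) (q L) (d' + 1) u : ℝ) / (q (sq L) : ℝ) ^ (d' + 1 - 1) with hρ
        rw [hX]
        have h3 : 2 * C * (L * Y) * ρ = 2 * (C * (L * Y) * ρ) := by ring
        rw [h3]
        linarith
  have hcard : ∑ u ∈ Ico (L ^ k) ((L + 1) ^ k), pr (Tk k) (L + 1) (E1 u) ≤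
      ((L : ℝ) + 1) ^ k * Real.exp (-lam) := by
    calc ∑ u ∈ Ico (L ^ k) ((L + 1) ^ k), pr (Tk k) (L + 1) (E1 u) ≤
          ∑ u ∈ Ico (L ^ k) ((L + 1) ^ k), Real.exp (-lam) :=
            Finset.sum_le_sum fun u hu => hE1 u (mem_Ico.mp hu).1 (mem_Ico.mp hu).2
      _ = ((L + 1) ^ k - L ^ k : ℕ) * Real.exp (-lam) := by
          rw [Finset.sum_const, Nat.card_Ico, nsmul_eq_mul]
      _ ≤ _ := by
          apply mul_le_mul_of_nonneg_right _ (Real.exp_pos _).le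
          have : (L + 1) ^ k - L ^ k ≤ (L + 1) ^ k := Nat.sub_le _ _
          exact_mod_cast this
  calc pr (Tk k) (L + 1) _ ≤ pr (Tk k) (L + 1)
        (fun t => E0 t ∨ ∃ u ∈ Ico (L ^ k) ((L + 1) ^ k), E1 u t) := pr_mono hT _ hsub
    _ ≤ pr (Tk k) (L + 1) E0 +
        pr (Tk k) (L + 1) (fun t => ∃ u ∈ Ico (L ^ k) ((L + 1) ^ k), E1 u t) := pr_or hT _ _ _
    _ ≤ C₁ / (L : ℝ) ^ 2 + ∑ u ∈ Ico (L ^ k) ((L + 1) ^ k), pr (Tk k) (L + 1) (E1 u) :=
        add_le_add (hBND L hL1') (pr_union hT _ _ _)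
    _ ≤ C₁ / (L : ℝ) ^ 2 + 1 / (L : ℝ) ^ 2 :=
        add_le_add le_rfl (hcard.trans (expb k L hL1' lam hlam.ge))
    _ = (C₁ + 1) / (L : ℝ) ^ 2 := by rw [add_div]

end Pool.Agent.V5helper3.RC
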